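import Mathlib
import Pool.Agent.H7.Veto

set_option autoImplicit false

namespace Pool.Agent.Results.MP_db841c_co.NotSingle

open Pool.Agent.H7.Veto

theorem result : ∃ (V : Type) (_ : Fintype V) (G : SimpleGraph V), DVI G ∧ ¬ VI G := by
  obtain ⟨N, hN⟩ := G4_not
  exact ⟨_, inferInstance, _, G4_dvi N, hN⟩

end Pool.Agent.Results.MP_db841c_co.NotSingle
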